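import Pool.Agent.L7h35.GP.Stm

set_option autoImplicit false

namespace Pool.Agent.L7h35.GP

theorem s_CHAIN : S_CHAIN := by
  intro V _ U D hU hD hstop m
  have hmono : ∀ i k, i ≤ k → D i ⊆ D k := by
    intro i k h
    induction k, h using Nat.le_induction with
    | base => exact Finset.Subset.refl _
    | succ k _ ih => exact ih.trans (hD k)
  -- once constant, always constant
  have hconst : ∀ s, D s = D (s + 1) → ∀ t, D (s + t) = D s := by
    intro s hs
    have h1 : ∀ t, D (s + t) = D (s + t + 1) := by
      intro t
      induction t with
      | zero => exact hs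
      | succ t ih => exact hstop _ ih
    intro t
    induction t with
    | zero => rfl
    | succ t ih => exact (h1 t).symm.trans ih
  obtain ⟨s, hs, hs2⟩ : ∃ s, s ≤ U.card - (D 0).card ∧ D s = D (s + 1) := by
    by_contra hc
    push Not at hc
    have hcard : ∀ k, k ≤ U.card - (D 0).card + 1 → (D 0).card + k ≤ (D k).card := by
      intro k hk
      induction k with
      | zero => exact le_rfl
      | succ k ih =>
        have h1 := ih (by omega)
        have h2 : (D k).card < (D (k + 1)).card :=
          Finset.card_lt_card (Finset.ssubset_iff_subset_ne.2 ⟨hD k, hc k (by omega)⟩)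
        omega
    have h1 := hcard _ le_rfl
    have h2 := Finset.card_le_card (hU (U.card - (D 0).card + 1))
    have h3 := Finset.card_le_card (hU 0)
    omega
  rcases Nat.le_total m s with h | h
  · exact hmono _ _ (h.trans hs)
  · obtain ⟨t, rfl⟩ := Nat.exists_eq_add_of_le h
    rw [hconst s hs2 t]
    exact hmono _ _ hs

end Pool.Agent.L7h35.GP
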