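import Pool.Agent.L7h35.GP.Stm

set_option autoImplicit false

namespace Pool.Agent.L7h35.GP

lemma chain_card {V : Type} [DecidableEq V] {D : ℕ → Finset V}
    (hD : ∀ k, D k ⊆ D (k + 1)) (hstop : ∀ k, D k = D (k + 1) → D (k + 1) = D (k + 2)) (k : ℕ) :
    (D 0).card + k ≤ (D k).card ∨ ∀ m, D m ⊆ D k := by
  have hmono : ∀ i k, i ≤ k → D i ⊆ D k := by
    intro i k h
    induction k, h using Nat.le_induction with
    | base => exact Finset.Subset.refl _
    | succ k _ ih => exact ih.trans (hD k)
  have hconst : ∀ s, D s = D (s + 1) → ∀ t, D (s + t) = D s := by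
    intro s hs
    have h1 : ∀ t, D (s + t) = D (s + t + 1) := by
      intro t
      induction t with
      | zero => exact hs
      | succ t ih => exact hstop _ ih
    intro t
    induction t with
    | zero => rfl
    | succ t ih => exact (h1 t).symm.trans ih
  induction k with
  | zero => exact Or.inl le_rfl
  | succ k ih =>
    rcases ih with ih | ih
    · by_cases he : D k = D (k + 1)
      · right
        intro m
        rcases Nat.le_total m (k + 1) with h | h
        · exact hmono _ _ h
        · obtain ⟨t, rfl⟩ := Nat.exists_eq_add_of_le (show k ≤ m by omega)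
          rw [hconst k he t]
          exact hD k
      · left
        have h2 : (D k).card < (D (k + 1)).card :=
          Finset.card_lt_card (Finset.ssubset_iff_subset_ne.2 ⟨hD k, he⟩)
        omega
    · exact Or.inr fun m => (ih m).trans (hD k)

theorem s_DET : S_DET := by
  classical
  intro V _ _ a j C hcore hM
  by_contra hc
  push Not at hc
  -- no short closed walks
  have hno : ∀ r, 1 ≤ r → r + 1 ≤ C.card → ∀ x ∈ C, ¬ Wk a r x x := fun r h1 h2 x hx => hc r h1 h2 x hx
  obtain ⟨K, hK, hf⟩ := hcore.full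
  -- unique successors
  have huniq : ∀ c ∈ C, ∀ x y, a c x → a c y → x = y := by
    intro c hcC x y hx hy
    by_contra hne
    have hxC := hcore.closed c hcC x hx
    have hyC := hcore.closed c hcC y hy
    let D : ℕ → Finset V := fun k => C.filter (fun v => ∃ h ≤ k, Wk a h v c)
    have hmem : ∀ k v, v ∈ D k ↔ v ∈ C ∧ ∃ h ≤ k, Wk a h v c := by
      intro k v
      simp [D]
    have hD : ∀ k, D k ⊆ D (k + 1) := by
      intro k v hv
      obtain ⟨h1, h, h2, h3⟩ := (hmem k v).1 hv
      exact (hmem _ v).2 ⟨h1, h, by omega, h3⟩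
    have hstop : ∀ k, D k = D (k + 1) → D (k + 1) = D (k + 2) := by
      intro k he
      apply Finset.Subset.antisymm (hD _)
      intro v hv
      obtain ⟨h1, h, h2, h3⟩ := (hmem _ v).1 hv
      rcases Nat.eq_zero_or_pos h with rfl | hpos
      · exact (hmem _ v).2 ⟨h1, 0, by omega, h3⟩
      · obtain ⟨h', rfl⟩ : ∃ l, h = l + 1 := ⟨h - 1, by omega⟩
        obtain ⟨w, hw, h4⟩ := h3
        have hwD : w ∈ D (k + 1) :=
          (hmem _ w).2 ⟨hcore.closed v h1 w hw, h', by omega, h4⟩
        rw [← he] at hwD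
        obtain ⟨-, h'', h5, h6⟩ := (hmem _ w).1 hwD
        exact (hmem _ v).2 ⟨h1, h'' + 1, by omega, w, hw, h6⟩
    have hD0 : (D 0).card = 1 := by
      rw [Finset.card_eq_one]
      refine ⟨c, ?_⟩
      ext v
      rw [hmem, Finset.mem_singleton]
      constructor
      · rintro ⟨-, h, h2, h3⟩
        obtain rfl : h = 0 := by omega
        exact h3
      · rintro rfl
        exact ⟨hcC, 0, le_rfl, rfl⟩
    have hxy : ∀ z, a c z → z ∉ D (C.card - 2) := by
      intro z hz hzD
      obtain ⟨-, h, h2, h3⟩ := (hmem _ z).1 hzD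
      exact hno (h + 1) (by omega) (by omega) c hcC ⟨z, hz, h3⟩
    rcases chain_card hD hstop (C.card - 2) with h | h
    · -- `D (M - 2)` has at least `M - 1` elements and misses `x ≠ y`
      have hsub : insert x (insert y (D (C.card - 2))) ⊆ C := by
        intro v hv
        rcases Finset.mem_insert.1 hv with rfl | hv
        · exact hxC
        rcases Finset.mem_insert.1 hv with rfl | hv
        · exact hyC
        exact ((hmem _ v).1 hv).1
      have h1 := Finset.card_le_card hsub
      rw [Finset.card_insert_of_notMem, Finset.card_insert_of_notMem (hxy y hy)] at h1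
      · omega
      · rw [Finset.mem_insert, not_or]
        exact ⟨hne, hxy x hx⟩
    · -- `x` reaches `c`
      obtain ⟨d, hd⟩ := hcore.conn c hcC
      have hxD : x ∈ D (K + d) := (hmem _ x).2 ⟨hxC, K + d, le_rfl, Wk_trans (hf x) hd⟩
      exact hxy x hx (h _ hxD)
  -- walks in `C` are deterministic
  have hdet : ∀ k, ∀ v ∈ C, ∀ w w', Wk a k v w → Wk a k v w' → w = w' := by
    intro k
    induction k with
    | zero =>
      intro v _ w w' h h'
      exact h.symm.trans h'
    | succ k ih =>
      rintro v hv w w' ⟨x, hx, h⟩ ⟨x', hx', h'⟩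
      have := huniq v hv x x' hx hx'
      subst this
      exact ih x (hcore.closed v hv x hx) w w' h h'
  have hex : ∃ q, 1 ≤ q ∧ Wk a q j j := ⟨K, hK, hf j⟩
  obtain ⟨L, hL1, hLW, hLmin⟩ : ∃ L, 1 ≤ L ∧ Wk a L j j ∧ ∀ q, 1 ≤ q → q < L → ¬ Wk a q j j := by
    refine ⟨Nat.find hex, (Nat.find_spec hex).1, (Nat.find_spec hex).2, ?_⟩
    intro q hq hlt hW
    exact Nat.find_min hex hlt ⟨hq, hW⟩
  have hdvd : ∀ k, Wk a k j j → L ∣ k := by
    intro k hk
    have h1 : Wk a (k / L * L + k % L) j j := by
      rw [mul_comm, Nat.div_add_mod]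
      exact hk
    obtain ⟨x, h2, h3⟩ := Wk_add.1 h1
    have := hdet _ j hcore.mem x j h2 (Wk_mul hLW _)
    subst this
    by_contra hnd
    have h4 : k % L ≠ 0 := fun h => hnd (Nat.dvd_of_mod_eq_zero h)
    exact hLmin (k % L) (by omega) (Nat.mod_lt _ (by omega)) h3
  have h1 := hdvd K (hf j)
  have h2 := hdvd (K + 1) (Full_succ hK hf j)
  have h3 : L ∣ 1 := (Nat.dvd_add_right h1).1 h2
  have h4 : L = 1 := Nat.dvd_one.1 h3
  subst h4
  exact hno 1 le_rfl (by omega) j hcore.mem hLW

end Pool.Agent.L7h35.GP
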