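import Pool.Agent.L7h35.GP.Tr

set_option autoImplicit false

namespace Pool.Agent.L7h35.GP

lemma Deg_map {V W : Type} (e : V ≃ W) {a : V → V → Prop} {j : V} {K : ℕ} (h : Deg a j K) :
    Deg (fun x y : W => a (e.symm x) (e.symm y)) (e j) K :=
  ⟨h.1, (Full_map e).2 h.2.1, fun k hk hk2 hf => h.2.2 k hk hk2 ((Full_map e).1 hf)⟩

/-- a new vertex `none` with out-arcs to the vertices in `P`, and no in-arcs -/
def ext {V : Type} (P : V → Prop) (a : V → V → Prop) : Option V → Option V → Prop :=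
  fun u v => ∃ y, v = some y ∧ ((∃ x, u = some x ∧ a x y) ∨ (u = none ∧ P y))

lemma ext_none {V : Type} {P : V → Prop} {a : V → V → Prop} {k : ℕ} (hk : 1 ≤ k) (u : Option V) :
    ¬ Wk (ext P a) k u none := by
  induction k, hk using Nat.le_induction generalizing u with
  | base =>
    intro h
    obtain ⟨y, hy, -⟩ := Wk_one.1 h
    cases hy
  | succ k _ ih =>
    rintro ⟨w, -, h⟩
    exact ih w h

lemma ext_some {V : Type} {P : V → Prop} {a : V → V → Prop} {j x : V} {k : ℕ} :
    Wk (ext P a) k (some x) (some j) ↔ Wk a k x j := by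
  induction k generalizing x with
  | zero => exact Option.some_inj
  | succ k ih =>
    constructor
    · rintro ⟨w, ⟨y, rfl, h | h⟩, h2⟩
      · obtain ⟨x', hx', h⟩ := h
        obtain rfl : x = x' := Option.some_inj.1 hx'
        exact ⟨y, h, ih.1 h2⟩
      · cases h.1
    · rintro ⟨y, h, h2⟩
      exact ⟨some y, ⟨y, rfl, Or.inl ⟨x, rfl, h⟩⟩, ih.2 h2⟩

lemma ext_new {V : Type} {P : V → Prop} {a : V → V → Prop} {j : V} {k : ℕ} :
    Wk (ext P a) (k + 1) none (some j) ↔ ∃ y, P y ∧ Wk a k y j := by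
  constructor
  · rintro ⟨w, ⟨y, rfl, h | h⟩, h2⟩
    · obtain ⟨x', hx', -⟩ := h
      cases hx'
    · exact ⟨y, h.2, ext_some.1 h2⟩
  · rintro ⟨y, h, h2⟩
    exact ⟨some y, ⟨y, rfl, Or.inr ⟨rfl, h⟩⟩, ext_some.2 h2⟩

lemma NP_of_ext {n K : ℕ} {P : Fin n → Prop} {a : Fin n → Fin n → Prop} {j : Fin n}
    (h : Deg (ext P a) (some j) K) : K ∈ NP (n + 1) := by
  let e : Option (Fin n) ≃ Fin (n + 1) := Fintype.equivFinOfCardEq (by simp)
  refine ⟨_, _, Deg_map e h, e none, fun k hk hf => ?_⟩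
  exact ext_none hk none ((Full_map e).1 hf none)

theorem s_EXT : S_EXT := by
  constructor
  · rintro n K - ⟨a, j, hK1, hK, hmin⟩
    refine NP_of_ext (P := fun y => a j y) (a := a) (j := j) ⟨hK1, ?_, ?_⟩
    · rintro (_ | x)
      · obtain ⟨l, rfl⟩ : ∃ l, K = l + 1 := ⟨K - 1, by omega⟩
        exact ext_new.2 (hK j)
      · exact ext_some.2 (hK x)
    · intro k hk hk2 hf
      exact hmin k hk hk2 fun x => ext_some.1 (hf (some x))
  · rintro n K hn ⟨a, j, hK1, hK, hmin⟩
    obtain ⟨u, hu⟩ : ∃ u, ¬ Wk a (K - 1) u j := by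
      rcases Nat.lt_or_ge 1 K with h | h
      · have := hmin (K - 1) (by omega) (by omega)
        unfold Full at this
        push Not at this
        exact this
      · obtain rfl : K = 1 := by omega
        have : Nontrivial (Fin n) := Fin.nontrivial_iff_two_le.2 hn
        obtain ⟨u, hu⟩ := exists_ne j
        exact ⟨u, hu⟩
    refine NP_of_ext (P := fun y => y = u) (a := a) (j := j) ⟨by omega, ?_, ?_⟩
    · rintro (_ | x)
      · exact ext_new.2 ⟨u, rfl, hK u⟩
      · exact ext_some.2 (Full_succ hK1 hK x)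
    · intro k hk hk2 hf
      rcases Nat.lt_or_ge k K with h | h
      · exact hmin k hk h fun x => ext_some.1 (hf (some x))
      · obtain rfl : k = K := by omega
        have h1 := hf none
        obtain ⟨l, rfl⟩ : ∃ l, k = l + 1 := ⟨k - 1, by omega⟩
        obtain ⟨y, rfl, h2⟩ := ext_new.1 h1
        exact hu h2

end Pool.Agent.L7h35.GP
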