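import Pool.Agent.L7h35.GP.Stm

set_option autoImplicit false

namespace Pool.Agent.L7h35.GP

lemma NP_two : NP 2 = {1} := by
  ext K
  constructor
  · rintro ⟨a, j, ⟨hK1, hK, hmin⟩, j', hj'⟩
    by_contra hne
    have hne : K ≠ 1 := hne
    have hK2 : 2 ≤ K := by omega
    have h1 := hmin 1 le_rfl (by omega)
    obtain ⟨i, hi⟩ : ∃ i : Fin 2, i ≠ j := exists_ne j
    have hall : ∀ x : Fin 2, x = i ∨ x = j := by
      intro x
      have := x.2
      have := i.2
      have := j.2
      have : (i : ℕ) ≠ j := fun h => hi (Fin.ext h)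
      have : (x : ℕ) = i ∨ (x : ℕ) = j := by omega
      rcases this with h | h
      · exact Or.inl (Fin.ext h)
      · exact Or.inr (Fin.ext h)
    by_cases hij : a i j
    · have hjj : ¬ a j j := by
        intro hjj
        apply h1
        intro u
        rcases hall u with rfl | rfl
        · exact Wk_one.2 hij
        · exact Wk_one.2 hjj
      -- out-arcs of `j`
      obtain ⟨K', rfl⟩ : ∃ l, K = l + 1 := ⟨K - 1, by omega⟩
      have hji : a j i := by
        obtain ⟨w, hw, -⟩ := hK j
        rcases hall w with rfl | rfl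
        · exact hw
        · exact absurd hw hjj
      by_cases hii : a i i
      · have hfj : Full a j 2 := by
          intro u
          rcases hall u with rfl | rfl
          · exact ⟨u, hii, j, hij, rfl⟩
          · exact ⟨i, hji, u, hij, rfl⟩
        have hfi : Full a i 1 := by
          intro u
          rcases hall u with rfl | rfl
          · exact Wk_one.2 hii
          · exact Wk_one.2 hji
        rcases hall j' with rfl | rfl
        · exact hj' 1 le_rfl hfi
        · exact hj' 2 (by norm_num) hfj
      · -- parity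
        have hpar : ∀ k : ℕ, (Wk a k j j → Even k) ∧ (Wk a k i j → Odd k) := by
          intro k
          induction k with
          | zero => exact ⟨fun _ => ⟨0, rfl⟩, fun h => absurd h hi⟩
          | succ k ih =>
            constructor
            · rintro ⟨w, hw, h⟩
              rcases hall w with rfl | rfl
              · exact (ih.2 h).add_one
              · exact absurd hw hjj
            · rintro ⟨w, hw, h⟩
              rcases hall w with rfl | rfl
              · exact absurd hw hii
              · exact (ih.1 h).add_one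
        have he := (hpar _).1 (hK j)
        have ho := (hpar _).2 (hK i)
        exact (Nat.not_odd_iff_even.2 he) ho
    · have : ∀ k, ¬ Wk a k i j := by
        intro k
        induction k with
        | zero => exact hi
        | succ k ih =>
          rintro ⟨w, hw, h⟩
          rcases hall w with rfl | rfl
          · exact ih h
          · exact hij hw
      exact this _ (hK i)
  · intro h
    have h : K = 1 := h
    subst h
    refine ⟨fun _ v => v = 0, 0, ⟨le_rfl, fun u => Wk_one.2 rfl, fun k hk hk2 => by omega⟩, 1, ?_⟩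
    intro k hk hf
    have : ∀ k : ℕ, 1 ≤ k → ∀ u : Fin 2, ¬ Wk (fun _ v : Fin 2 => v = 0) k u 1 := by
      intro k hk
      induction k, hk using Nat.le_induction with
      | base =>
        intro u h
        exact absurd (Wk_one.1 h) (by decide)
      | succ k _ ih =>
        rintro u ⟨w, -, h⟩
        exact ih w h
    exact this k hk 0 (hf 0)

theorem s_FIN (hTR : S_TR) (hIND : S_IND) (hUP : S_UP) : S_FIN := by
  have hset : ∀ (n : ℕ) (j : Fin n), 3 ≤ n → R 2 n j = {k | 1 ≤ k ∧ k + 4 * n ≤ n ^ 2 + 6 ∧
      (Even n ∨ k + 6 * n ≤ n ^ 2 + 12 ∨ n ^ 2 + 6 ≤ k + 5 * n)} := by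
    intro n j hn
    rw [hTR n j]
    ext k
    exact ⟨fun h => hUP n k hn h, fun h => hIND n k hn h.1 h.2.1 h.2.2⟩
  have htwo : ∀ j : Fin 2, R 2 2 j = {1} := by
    intro j
    rw [hTR 2 j, NP_two]
  refine ⟨hset, htwo, ?_⟩
  intro n j hn
  rcases Nat.lt_or_ge n 3 with h3 | h3
  · obtain rfl : n = 2 := by omega
    rw [htwo]
    constructor
    · rintro ⟨k, -, ⟨x, hx, hxk⟩, y, hy, hky⟩
      have hx : x = 1 := hx
      have hy : y = 1 := hy
      omega
    · rintro ⟨-, h⟩
      omega
  · rw [hset n j h3]
    constructor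
    · rintro ⟨k, hk, ⟨x, hx, hxk⟩, y, hy, hky⟩
      have h : ¬ (Even n ∨ k + 6 * n ≤ n ^ 2 + 12 ∨ n ^ 2 + 6 ≤ k + 5 * n) := by
        intro h
        apply hk
        refine ⟨?_, ?_, h⟩
        · have := hx.1
          omega
        · have := hy.2.1
          omega
      rw [not_or, not_or] at h
      obtain ⟨h1, h2, h4⟩ := h
      have ho : Odd n := Nat.not_even_iff_odd.1 h1
      refine ⟨ho, ?_⟩
      obtain ⟨t, ht⟩ := ho
      omega
    · rintro ⟨ho, h9⟩
      have hsq : 9 * n ≤ n ^ 2 := by nlinarith
      refine ⟨n ^ 2 + 13 - 6 * n, ?_, ⟨1, ⟨le_rfl, by omega, Or.inr (Or.inl (by omega))⟩, by omega⟩,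
        n ^ 2 + 6 - 4 * n, ⟨by omega, by omega, Or.inr (Or.inr (by omega))⟩, by omega⟩
      rintro ⟨-, -, h | h | h⟩
      · exact (Nat.not_even_iff_odd.2 ho) h
      · omega
      · omega

end Pool.Agent.L7h35.GP
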