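import Pool.Agent.L7h35.GP.Stm

set_option autoImplicit false

namespace Pool.Agent.L7h35.GP

lemma NP_sub_T {n k : ℕ} (h : k ∈ NP n) : k ∈ T n := by
  obtain ⟨a, j, h1, -⟩ := h
  exact ⟨a, j, h1⟩

theorem s_IND (hEXT : S_EXT) (hE1 : S_E1) (hE2 : S_E2) (hE3 : S_E3) : S_IND := by
  intro n k hn
  induction n, hn using Nat.le_induction generalizing k with
  | base =>
    intro hk1 hk2 _
    -- `k = 1, 2, 3`
    have h1 : 1 ∈ T 2 := hE1 2 1 2 le_rfl (by norm_num) (by norm_num) (by norm_num) (by norm_num)
    have h2 : 2 ∈ T 2 := hE2 2 le_rfl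
    rcases (show k = 1 ∨ k = 2 ∨ k = 3 by omega) with rfl | rfl | rfl
    · exact hEXT.1 2 1 (by norm_num) h1
    · exact hEXT.1 2 2 (by norm_num) h2
    · exact hEXT.2 2 2 (by norm_num) h2
  | succ n hn ih =>
    intro hk1 hk2 hk3
    have hT : ∀ k, k ∈ T n → k ∈ NP (n + 1) := fun k h => hEXT.1 n k (by omega) h
    have hT1 : ∀ k, k ∈ T n → k + 1 ∈ NP (n + 1) := fun k h => hEXT.2 n k (by omega) h
    obtain ⟨m, rfl⟩ : ∃ m, n = m + 3 := ⟨n - 3, by omega⟩
    have e1 : (m + 3) ^ 2 = m * m + 6 * m + 9 := by ring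
    have e2 : (m + 3 + 1) ^ 2 = m * m + 8 * m + 16 := by ring
    rw [e2] at hk2 hk3
    rw [e1] at ih
    have e3 : (m + 2) * (m + 1) = m * m + 3 * m + 2 := by ring
    have e4 : (m + 2) * m = m * m + 2 * m := by ring
    -- the values of E1 with `p = N - 1`
    have hA : ∀ H, 2 ≤ H → H ≤ m + 3 → m * m + 3 * m + 2 + H - 1 ∈ T (m + 3) := by
      intro H h1 h2
      have h3 : (m + 2) * (m + 1) + H - 1 ∈ T (m + 3) :=
        hE1 (m + 3) (m + 2) H (by omega) (by omega)
          ((Nat.coprime_self_add_right (m := m + 2) (n := 1)).2 (Nat.coprime_one_right _)) (by omega) h2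
      rwa [e3] at h3
    have hB : m * m + 3 * m + 2 + (m + 3) ∈ T (m + 3) := by
      have h3 : (m + 2) * (m + 1) + (m + 3) ∈ T (m + 3) := hE2 (m + 3) (by omega)
      rwa [e3] at h3
    have hC : m * m + 3 * m + 2 ∈ T (m + 3) := by
      have h3 : (m + 2) * (m + 1) ∈ T (m + 3) := hE3 (m + 3) (by omega)
      rwa [e3] at h3
    -- the top part: `k ≥ N² - 3N + 2`
    have htop : m * m + 3 * m + 2 ≤ k → k ∈ NP (m + 3 + 1) := by
      intro h
      rcases Nat.eq_or_lt_of_le h with h | h
      · rw [← h]
        exact hT _ hC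
      · rcases Nat.lt_or_ge k (m * m + 3 * m + 2 + (m + 3)) with h2 | h2
        · have h3 := hA (k - (m * m + 3 * m + 2) + 1) (by omega) (by omega)
          rw [show m * m + 3 * m + 2 + (k - (m * m + 3 * m + 2) + 1) - 1 = k by omega] at h3
          exact hT _ h3
        · rcases Nat.eq_or_lt_of_le h2 with h3 | h3
          · rw [← h3]
            exact hT _ hB
          · have h4 := hT1 _ hB
            rwa [show m * m + 3 * m + 2 + (m + 3) + 1 = k by omega] at h4
    rcases Nat.lt_or_ge k (m * m + 3 * m + 2) with hlt | hge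
    swap
    · exact htop hge
    rcases Nat.even_or_odd (m + 3) with hev | hodd
    · -- `N` even
      have hnot : ¬ Even (m + 3 + 1) := by
        rw [Nat.even_add_one, not_not]
        exact hev
      have hk : k + 6 * (m + 3 + 1) ≤ m * m + 8 * m + 16 + 12 := by
        rcases hk3 with h | h | h
        · exact absurd h hnot
        · exact h
        · omega
      rcases Nat.lt_or_ge (m * m + 2 * m + 3) k with h | h
      · -- `k = N² - 4N + 7`
        have h1 := ih (m * m + 2 * m + 3) (by omega) (by omega) (Or.inl hev)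
        have h2 := hT1 _ (NP_sub_T h1)
        rwa [show m * m + 2 * m + 3 + 1 = k by omega] at h2
      · exact hT _ (NP_sub_T (ih k hk1 (by omega) (Or.inl hev)))
    · -- `N` odd
      rcases Nat.lt_or_ge k (m * m + 2 * m + 4) with h1 | h1
      · rcases Nat.lt_or_ge k (m * m + 4) with h2 | h2
        · -- `k ≤ N² - 6N + 12`
          exact hT _ (NP_sub_T (ih k hk1 (by omega) (Or.inr (Or.inl (by omega)))))
        · rcases Nat.lt_or_ge k (m * m + m) with h3 | h3
          · -- `N² - 6N + 13 ≤ k ≤ N² - 5N + 5`, so `m ≥ 5`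
            obtain ⟨t, rfl⟩ : ∃ t, m = t + 2 := ⟨m - 2, by omega⟩
            have e5 : (t + 2) * (t + 2) = t * t + 4 * t + 4 := by ring
            have e6 : (t + 4) * t = t * t + 4 * t := by ring
            rw [e5] at h1 h2 h3
            have hD : ∀ H, 5 ≤ H → H ≤ t + 5 → t * t + 4 * t + H - 1 ∈ T (t + 2 + 3) := by
              intro H h5 h6
              have hodd1 : Odd (t + 1) := by
                obtain ⟨s, hs⟩ := hodd
                exact ⟨s - 2, by omega⟩
              have hcop : Nat.Coprime (t + 1) (t + 1 + 4) := by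
                rw [Nat.coprime_self_add_right]
                have : Nat.Coprime (t + 1) (2 ^ 2) :=
                  Nat.Coprime.pow_right 2 (Nat.coprime_two_right.2 hodd1)
                simpa using this
              have h7 : (t + 4) * t + H - 1 ∈ T (t + 5) :=
                hE1 (t + 5) (t + 1) H (by omega) (by omega) hcop (by omega) h6
              rwa [e6] at h7
            rcases Nat.lt_or_ge k (t * t + 4 * t + (t + 5)) with h4 | h4
            · have h5 := hD (k - (t * t + 4 * t) + 1) (by omega) (by omega)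
              rw [show t * t + 4 * t + (k - (t * t + 4 * t) + 1) - 1 = k by omega] at h5
              exact hT _ h5
            · have h5 := hT1 _ (hD (t + 5) (by omega) le_rfl)
              rwa [show t * t + 4 * t + (t + 5) - 1 + 1 = k by omega] at h5
          · -- `N² - 5N + 6 ≤ k ≤ N² - 4N + 6`
            exact hT _ (NP_sub_T (ih k hk1 (by omega) (Or.inr (Or.inr (by omega)))))
      · -- `N² - 4N + 7 ≤ k ≤ N² - 3N + 1`
        have hodd1 : Odd (m + 1) := by
          obtain ⟨s, hs⟩ := hodd
          exact ⟨s - 1, by omega⟩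
        have hcop : Nat.Coprime (m + 1) (m + 1 + 2) := by
          rw [Nat.coprime_self_add_right]
          exact Nat.coprime_two_right.2 hodd1
        have h7 : (m + 2) * m + (k - (m * m + 2 * m) + 1) - 1 ∈ T (m + 3) :=
          hE1 (m + 3) (m + 1) (k - (m * m + 2 * m) + 1) (by omega) (by omega) hcop (by omega)
            (by omega)
        rw [e4, show m * m + 2 * m + (k - (m * m + 2 * m) + 1) - 1 = k by omega] at h7
        exact hT _ h7

end Pool.Agent.L7h35.GP
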