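import Pool.Agent.L7h35.GP.Zs

set_option autoImplicit false

namespace Pool.Agent.L7h35.GP

theorem s_SPLIT : S_SPLIT := by
  intro V _ a C X hC hadd hsmall r
  induction r using Nat.strong_induction_on with
  | _ r ih =>
    intro hr c hc hW
    rcases Nat.lt_or_ge C.card r with h | h
    · obtain ⟨x, hx0, hxp, hx⟩ := exists_path hW
      have hxC : ∀ i ≤ r, x i ∈ C := fun i hi => path_mem hC hx (hx0 ▸ hc) hi
      obtain ⟨i, hi, k, hk, hne, he⟩ := Finset.exists_ne_map_eq_of_card_lt_of_maps_to
        (s := Finset.range r) (t := C) (f := x) (by rwa [Finset.card_range])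
        (fun i hi => hxC i (Finset.mem_range.1 hi).le)
      have key : ∀ i k, i < k → k < r → x i = x k → X r := by
        intro i k hik hkp he
        have h1 : Wk a (k - i) (x i) (x i) := by
          have := seg hx (i := i) (l := k - i) (by omega)
          rw [show i + (k - i) = k by omega, ← he] at this
          exact this
        have h2 : Wk a (r - k + i) (x i) (x i) := by
          have h3 := seg hx (i := k) (l := r - k) (by omega)
          rw [show k + (r - k) = r by omega, hxp, ← hx0, ← he] at h3
          have h4 := seg hx (i := 0) (l := i) (by omega)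
          rw [Nat.zero_add] at h4
          exact Wk_trans h3 h4
        have hm := hxC i (by omega)
        have := hadd _ _ (ih (k - i) (by omega) (by omega) _ hm h1)
          (ih (r - k + i) (by omega) (by omega) _ hm h2)
        rwa [show k - i + (r - k + i) = r by omega] at this
      have hi' := Finset.mem_range.1 hi
      have hk' := Finset.mem_range.1 hk
      rcases Nat.lt_trichotomy i k with h | h | h
      · exact key i k h hk' he
      · exact absurd h hne
      · exact key k i h hi' he.symm
    · exact hsmall r hr h c hc hW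

theorem s_ODD (hS : S_SPLIT) : S_ODD := by
  intro V inst a j C hcore hev h6 hmin
  by_contra hc
  push Not at hc
  have hall : ∀ r, 1 ≤ r → ∀ x ∈ C, Wk a r x x → Even r := by
    apply hS V inst a C (fun r => Even r) hcore.closed (fun s t hs ht => hs.add ht)
    intro r hr hrN x hx hW
    have h1 : ¬ r < C.card - 2 := fun h => hmin r hr h x hx hW
    have h2 : r ≠ C.card - 1 := by
      rintro rfl
      exact hc x hx hW
    obtain ⟨t, ht⟩ := hev
    rcases (show r = C.card - 2 ∨ r = C.card by omega) with h | h
    · exact ⟨t - 1, by omega⟩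
    · exact ⟨t, by omega⟩
  obtain ⟨K, hK, hf⟩ := hcore.full
  have h1 := hall K hK j hcore.mem (hf j)
  have h2 := hall (K + 1) (by omega) j hcore.mem (Full_succ hK hf j)
  rw [Nat.even_add_one] at h2
  exact h2 h1

theorem s_PM1 (hS : S_SPLIT) : S_PM1 := by
  intro V inst a j C hcore h3 hmin hW
  generalize hN : C.card = N at *
  have hpos : 1 ≤ (N - 2) * (N - 1) - 1 := by
    have : 1 * 2 ≤ (N - 2) * (N - 1) := Nat.mul_le_mul (by omega) (by omega)
    omega
  have hall := hS V inst a C (fun r => ∃ s t, r = s * (N - 1) + t * N) hcore.closed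
    (by
      rintro _ _ ⟨s, t, rfl⟩ ⟨s', t', rfl⟩
      exact ⟨s + s', t + t', by ring⟩)
    (by
      intro r hr hrN x hx hWx
      have h1 : ¬ r < N - 1 := fun h => hmin r hr h x hx hWx
      have hrN' : r ≤ N := by rw [← hN]; exact hrN
      rcases (show r = N - 1 ∨ r = N by omega) with h | h
      · exact ⟨1, 0, by omega⟩
      · exact ⟨0, 1, by omega⟩) _ hpos j hcore.mem hW
  obtain ⟨s, t, hst⟩ := hall
  obtain ⟨m, rfl⟩ : ∃ m, N = m + 2 := ⟨N - 2, by omega⟩
  rw [show m + 2 - 2 = m by omega, show m + 2 - 1 = m + 1 by omega] at hst hpos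
  -- `s (m+1) + t (m+2) + 1 = m (m+1)`
  have h1 : s * (m + 1) + t * (m + 2) + 1 = m * (m + 1) := by omega
  -- so `m + 1` divides `t + 1`
  have h2 : (m + 1) ∣ t + 1 := by
    have h4 : (s + t) * (m + 1) + (t + 1) = m * (m + 1) := by linarith [h1, add_mul s t (m + 1)]
    exact (Nat.dvd_add_right (Dvd.intro_left (s + t) rfl)).1 (h4 ▸ Dvd.intro_left m rfl)
  obtain ⟨q, hq⟩ := h2
  have hq1 : 1 ≤ q := by
    rcases Nat.eq_zero_or_pos q with rfl | h
    · omega
    · exact h
  have h5 : m + 1 ≤ t + 1 := by
    rw [hq]
    nlinarith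
  nlinarith

end Pool.Agent.L7h35.GP
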