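import Mathlib

/-!
# Project GP (MP_fa7001_co): the j-primitive degrees of non-primitive matrices, complete answer

Theorem: for `n ≥ 3` the set `R_j(2,n)` is `{1, ..., n²-4n+6}` for even `n`, and for odd `n` it is
`{1, ..., n²-6n+12} ∪ {n²-5n+6, ..., n²-4n+6}`.  So it has a gap iff `n` is odd and `n ≥ 9`.

Every `S_X` below is a Prop with a proof sketch.  Part `X` is a file
`Pool/Agent/L7hNN/GP/X.lean` with `theorem Pool.Agent.L7hNN.GP.s_X : Pool.Agent.L7h35.GP.S_X`.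
-/

set_option autoImplicit false

namespace Pool.Agent.L7h35.GP

/-! ## the tensor side (word for word the starting file of the problem) -/

/-- the set of all `u` with `a_{u i_2 ... i_m} > 0` for some `i_2, ..., i_m ∈ S` -/
def next {m n : ℕ} (A : Fin n → (Fin (m - 1) → Fin n) → ℝ) (S : Set (Fin n)) : Set (Fin n) :=
  {u | ∃ i : Fin (m - 1) → Fin n, (∀ t, i t ∈ S) ∧ 0 < A u i}

/-- the sets `S_k(A, j)` for `k ≥ 1` (and `S_0(A, j) = {j}`) -/
def S {m n : ℕ} (A : Fin n → (Fin (m - 1) → Fin n) → ℝ) (j : Fin n) : ℕ → Set (Fin n)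
  | 0 => {j}
  | k + 1 => next A (S A j k)

/-- `A` is `j`-primitive -/
def JPrimitive {m n : ℕ} (A : Fin n → (Fin (m - 1) → Fin n) → ℝ) (j : Fin n) : Prop :=
  ∃ k, 1 ≤ k ∧ S A j k = Set.univ

/-- the `j`-primitive degree `γ_j(A)` -/
noncomputable def gamma {m n : ℕ} (A : Fin n → (Fin (m - 1) → Fin n) → ℝ) (j : Fin n) : ℕ :=
  sInf {k | 1 ≤ k ∧ S A j k = Set.univ}

/-- the set `R_j(m, n)` -/
def R (m n : ℕ) (j : Fin n) : Set ℕ :=
  {k | ∃ A : Fin n → (Fin (m - 1) → Fin n) → ℝ, (∀ u i, 0 ≤ A u i) ∧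
    ¬ (∀ j' : Fin n, JPrimitive A j') ∧ JPrimitive A j ∧ gamma A j = k}

/-! ## digraphs -/

/-- `Wk a k u v`: there is a walk of length exactly `k` from `u` to `v` (arc `x → y` iff `a x y`) -/
def Wk {V : Type} (a : V → V → Prop) : ℕ → V → V → Prop
  | 0, u, v => u = v
  | k + 1, u, v => ∃ w, a u w ∧ Wk a k w v

/-- every vertex has a walk of length exactly `k` to `j` -/
def Full {V : Type} (a : V → V → Prop) (j : V) (k : ℕ) : Prop := ∀ u, Wk a k u j

/-- `K` is the least `k ≥ 1` such that every vertex has a walk of length `k` to `j` -/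
def Deg {V : Type} (a : V → V → Prop) (j : V) (K : ℕ) : Prop :=
  1 ≤ K ∧ Full a j K ∧ ∀ k, 1 ≤ k → k < K → ¬ Full a j k

/-- all degrees of digraphs with `n` vertices -/
def T (n : ℕ) : Set ℕ := {K | ∃ (a : Fin n → Fin n → Prop) (j : Fin n), Deg a j K}

/-- the degrees of the non-primitive ones -/
def NP (n : ℕ) : Set ℕ :=
  {K | ∃ (a : Fin n → Fin n → Prop) (j : Fin n), Deg a j K ∧ ∃ j', ∀ k, 1 ≤ k → ¬ Full a j' k}

section basic
variable {V : Type} {a : V → V → Prop}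

lemma Wk_one {u v : V} : Wk a 1 u v ↔ a u v := by
  constructor
  · rintro ⟨w, h, h2⟩
    cases h2
    exact h
  · intro h
    exact ⟨v, h, rfl⟩

lemma Wk_add {k l : ℕ} {u v : V} : Wk a (k + l) u v ↔ ∃ w, Wk a k u w ∧ Wk a l w v := by
  induction k generalizing u with
  | zero =>
    rw [Nat.zero_add]
    exact ⟨fun h => ⟨u, rfl, h⟩, fun ⟨w, h, h2⟩ => by cases h; exact h2⟩
  | succ k ih =>
    rw [show k + 1 + l = (k + l) + 1 by omega]
    constructor
    · rintro ⟨w, h, h2⟩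
      obtain ⟨x, h3, h4⟩ := ih.1 h2
      exact ⟨x, ⟨w, h, h3⟩, h4⟩
    · rintro ⟨x, ⟨w, h, h3⟩, h4⟩
      exact ⟨w, h, ih.2 ⟨x, h3, h4⟩⟩

lemma Wk_trans {k l : ℕ} {u v w : V} (h : Wk a k u v) (h2 : Wk a l v w) : Wk a (k + l) u w :=
  Wk_add.2 ⟨v, h, h2⟩

lemma Wk_cast {k l : ℕ} {u v : V} (h : Wk a k u v) (e : k = l) : Wk a l u v := e ▸ h

lemma Wk_mul {p : ℕ} {x : V} (h : Wk a p x x) (t : ℕ) : Wk a (t * p) x x := by
  induction t with
  | zero => rw [Nat.zero_mul]; rfl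
  | succ t ih => exact Wk_cast (Wk_trans ih h) (by ring)

lemma Full_succ {j : V} {k : ℕ} (hk : 1 ≤ k) (h : Full a j k) : Full a j (k + 1) := by
  intro u
  obtain ⟨k, rfl⟩ : ∃ l, k = l + 1 := ⟨k - 1, by omega⟩
  obtain ⟨w, hw, -⟩ := h u
  exact ⟨w, hw, h w⟩

lemma Full_le {j : V} {k l : ℕ} (hk : 1 ≤ k) (hl : k ≤ l) (h : Full a j k) : Full a j l := by
  induction l, hl using Nat.le_induction with
  | base => exact h
  | succ l hl ih => exact Full_succ (by omega) ih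

/-- a handy form of `Deg`: full at `K`, not full at `K - 1` -/
lemma Deg_of {j : V} {K : ℕ} (hK : 2 ≤ K) (h : Full a j K) (h2 : ¬ Full a j (K - 1)) :
    Deg a j K := by
  refine ⟨by omega, h, fun k hk hk2 hf => h2 (Full_le hk (by omega) hf)⟩

end basic

/-- the core of a `j`-primitive digraph: the set `C` of the vertices reachable from `j`
(`conn` and `closed`); every vertex reaches `j` (`full`). -/
structure Core {V : Type} (a : V → V → Prop) (j : V) (C : Finset V) : Prop where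
  mem : j ∈ C
  closed : ∀ v ∈ C, ∀ w, a v w → w ∈ C
  conn : ∀ v ∈ C, ∃ k, Wk a k j v
  full : ∃ K, 1 ≤ K ∧ Full a j K

/-! ## the parts -/

/-- TR (60 lines).  Translation, order 2: `A u (fun _ => v) > 0` iff `a u v`; relabel the vertices by
`Equiv.swap` to move `j`. -/
def S_TR : Prop := ∀ (n : ℕ) (j : Fin n), R 2 n j = NP n

/-- EXT (80 lines).  Add a vertex `w = Fin.last n` without in-arcs (so not primitive).
First: copy the row of a vertex `u₀` (`w → x` iff `u₀ → x`): `Wk k w j ↔ Wk k u₀ j` for `k ≥ 1`.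
Second: one arc `w → u*` where `u*` has no walk of length `K - 1` to `j` (exists: if `K = 1` any
`u* ≠ j`, otherwise by `Deg`).  (`Option (Fin n)` or `Fin.lastCases`, as you like.) -/
def S_EXT : Prop := (∀ n K : ℕ, 1 ≤ n → K ∈ T n → K ∈ NP (n + 1)) ∧
  (∀ n K : ℕ, 2 ≤ n → K ∈ T n → K + 1 ∈ NP (n + 1))

/-- SYM (50 lines).  Symmetry of the numerical semigroup `S = ⟨M, p⟩`, `F = M p - M - p`
(`x + y + M + p = M p` says `x + y = F`): of two numbers with sum `F` exactly one is in `S`.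
(Or from `frobeniusNumber_pair`; direct proof: take `a < p` with `a M ≡ x mod p`,
`x = a M + b p` with `b` an integer; if `b < 0` then `F - x = (p-1-a) M + (-1-b) p`.) -/
def S_SYM : Prop := ∀ M p x y : ℕ, 1 ≤ p → 1 ≤ M → Nat.Coprime p M → x + y + M + p = M * p →
  ((∃ s t, x = s * M + t * p) ↔ ¬ ∃ s t, y = s * M + t * p)

/-- E1 (150 lines, hypothesis SYM).  Vertices `Fin M`, `j = 0`; arcs `x → x-1` (`x ≥ 1`),
`0 → M-1`, and the chord `H % M → H-1-e`, `e = M - p`.  With `S = ⟨M, p⟩`, `g = (M-1)(p-1)`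
(everything `≥ g` is in `S`; `F = g - 1 ∉ S`) and `K = g + H - 1`:
* walks to `0` that exist: from `x`: all lengths in `x + S`; from `x ≥ H`: all in `x - e + S`.
* full at `K`: `x < H`: `K - x ≥ g`. `x ≥ H`: if `x ≤ H-1+e` then `K - (x-e) ≥ g`; otherwise
  `c = x-e-H+1` is in `[1, p-1]` and `K - (x-e) = g - c`, `F - (g-c) = c - 1 < p`, so by SYM
  `g - c ∈ S` unless `c = 1`; if `c = 1` then `K - x = F - e`, which is in `S` by SYM because
  `e = M - p ∉ S` (`e ∈ S`, `e < M` gives `p ∣ M`, `p = 1`, but `c ≤ p - 1`).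
* not full at `K - 1`: by induction on the length, a walk `x → 0` has length in `S` if `x = 0`, in
  `x + S` if `1 ≤ x < H`, in `(x + S) ∪ (x - e + S)` if `x ≥ H`.  So `x = H - 1 (≥ 1)` has no walk
  of length `K - 1 = (g - 1) + (H - 1)`.  (`p = 1`: `g = 0`, `H = M`, `K = M - 1`; if `M = 2`
  then `K = 1`.) -/
def S_E1 : Prop := ∀ M p H : ℕ, 1 ≤ p → p < M → Nat.Coprime p M → M - p + 1 ≤ H → H ≤ M →
  (M - 1) * (p - 1) + H - 1 ∈ T M

/-- E2 (80 lines).  Wielandt's digraph: `Fin M`, `j = 0`; arcs `x → x-1` (`x ≥ 1`), `0 → M-1`, chord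
`1 → M-1`.  Lengths of walks `x → 0`: `x + S` for `x ≥ 1`, `{0} ∪ (M + S)` for `x = 0`,
`S = ⟨M, M-1⟩`, with Frobenius number `(M-1)(M-2) - 1`.  So the degree is `M + (M-1)(M-2)`
(vertex `0` has no walk of length `M + (M-1)(M-2) - 1`). -/
def S_E2 : Prop := ∀ M : ℕ, 2 ≤ M → (M - 1) * (M - 2) + M ∈ T M

/-- E3 (120 lines, hypothesis SYM).  `Fin M`, `j = 0`; arcs `x → x-1` (`x ≥ 1`), `0 → M-1`, chords
`1 → M-1` and `2 → 0`.  All closed walks at `0` have length in `S = ⟨M, M-1⟩` (by induction: walks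
`x → 0` have length in `(x + S) ∪ (x - 1 + S)` for `x ≥ 2`, in `1 + S` for `x = 1`, in `S` for
`x = 0`), so no closed walk of length `F = g - 1`, `g = (M-1)(M-2)`.  Full at `g`: `x = 0`: `g ∈ S`;
`x = 1`: walk `1 → M-1 → ... → 2 → 0` of length `M-1`, and `g - (M-1) = (M-1)(M-3) ∈ S`;
`x ≥ 2`: walks of lengths `x + S` and `x - 1 + S`; `g - (x-1) = F - (x-2)` is in `S` by SYM unless
`x = 2`, and for `x = 2` use `g - 2 = F - 1 ∈ S`. -/
def S_E3 : Prop := ∀ M : ℕ, 3 ≤ M → (M - 1) * (M - 2) ∈ T M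

/-- IND (80 lines, hypotheses EXT, E1, E2, E3).  Note `NP n ⊆ T n` and `NP n ∪ (NP n + 1) ⊆ NP (n+1)`.
Induction on `n` with `N = n - 1`:
`n = 3`: `T 2 ∋ 1` (E1: `M = 2, p = 1, H = 2`), `T 2 ∋ 2` (E2).
`n` odd `≥ 5`: `NP N = {1..N²-4N+6}`, `+1`; `E3`: `N²-3N+2`; E1 with `p = N-1`
(`H = 2..N`): `N²-3N+3 .. N²-2N+1`; E2: `N²-2N+2`, and `+1`.
`n = 4`: `NP 3`, and `T 3 ∋ 3, 4` (E1, `p = 2`, `H = 2, 3`), `5` (E2), `+1`.
`n` even `≥ 6` (`N` odd): `NP N = {1..N²-6N+12} ∪ {N²-5N+6..N²-4N+6}`;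
E1 with `p = N-4` (`H = 5..N`, with `+1`): `N²-6N+9 .. N²-5N+5`; `p = N-2` (`H = 3..N`):
`N²-4N+5 .. N²-3N+2`, `+1`; `p = N-1` as above. -/
def S_IND : Prop := ∀ n k : ℕ, 3 ≤ n → 1 ≤ k → k + 4 * n ≤ n ^ 2 + 6 →
  (Even n ∨ k + 6 * n ≤ n ^ 2 + 12 ∨ n ^ 2 + 6 ≤ k + 5 * n) → k ∈ NP n

/-- CHAIN (50 lines).  An increasing chain of finite sets in `U` that stops once it stops at one
step: it is constant from index `|U| - |D 0|` on. -/
def S_CHAIN : Prop := ∀ (V : Type) (_ : DecidableEq V) (U : Finset V) (D : ℕ → Finset V),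
  (∀ k, D k ⊆ U) → (∀ k, D k ⊆ D (k + 1)) → (∀ k, D k = D (k + 1) → D (k + 1) = D (k + 2)) →
  ∀ m, D m ⊆ D (U.card - (D 0).card)

/-- ZS (60 lines).  The vertices of a closed walk of length `p` at `c` that cannot be shortened:
a set `Z ⊆ C` with `p` elements, each on a closed walk of length `p` and with a successor in `Z`.
(`p < 2 q`, `q` = least length of a closed walk in `C`: two equal vertices among
`x_0 .. x_{p-1}` would split the closed walk into two closed walks, one of length `< q`.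
Get `x : ℕ → V` with `x 0 = c`, `x p = c`, `a (x i) (x (i+1))` for `i < p`, `Z` = image of
`range p`.) -/
def S_ZS : Prop := ∀ (V : Type) (_ : DecidableEq V) (a : V → V → Prop) (C : Finset V) (c : V)
  (p q : ℕ), (∀ v ∈ C, ∀ w, a v w → w ∈ C) → c ∈ C → 1 ≤ p → Wk a p c c → p < 2 * q →
  (∀ r, 1 ≤ r → r < q → ∀ x ∈ C, ¬ Wk a r x x) →
  ∃ Z : Finset V, Z ⊆ C ∧ Z.card = p ∧ c ∈ Z ∧
    ∀ z ∈ Z, Wk a p z z ∧ (∃ z' ∈ Z, a z z') ∧ (∀ y ∈ Z, ∃ k, k < p ∧ Wk a k z y)

/-- GIRTH (120 lines, hypotheses CHAIN, ZS).  `Z` from ZS with `q = p`.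
(1) every `u` reaches `Z` in exactly `n - p` steps: `D k` = vertices with a walk of length `≤ k`
into `Z`, CHAIN, then go on inside `Z`.  (2) from `z ∈ Z` to `j` in exactly `p (|C| - 1)` steps:
`D k` = endpoints of walks of length `p k` from `z`, increasing because of the closed walk at `z`,
CHAIN with `U = C`; `j ∈ D k` for large `k` by `full`. -/
def S_GIRTH : Prop := ∀ (V : Type) (_ : Fintype V) (_ : DecidableEq V) (a : V → V → Prop) (j : V)
  (C : Finset V) (p : ℕ) (c : V), Core a j C → 1 ≤ p → c ∈ C → Wk a p c c →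
  (∀ q, 1 ≤ q → q < p → ∀ x ∈ C, ¬ Wk a q x x) →
  Full a j ((Fintype.card V - p) + p * (C.card - 1))

/-- DET (100 lines, hypothesis CHAIN).  If all closed walks in `C` have length `≥ M = |C|`, then each
`c ∈ C` has only one successor: `B k` = vertices of `C` with a walk of length `≤ k` to `c`,
`|B (M-2)| ≥ M - 1` (CHAIN, `C` strongly connected), and no successor of `c` is in `B (M-2)`.
So the walks are the orbits of a map `f : C → C`, surjective (each vertex of `C` has a predecessor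
in `C`), and `f^K` is constant `= j` by `full`: `|C| = 1`. -/
def S_DET : Prop := ∀ (V : Type) (_ : Fintype V) (_ : DecidableEq V) (a : V → V → Prop) (j : V)
  (C : Finset V), Core a j C → 2 ≤ C.card → ∃ p, 1 ≤ p ∧ p + 1 ≤ C.card ∧ ∃ c ∈ C, Wk a p c c

/-- SPLIT (60 lines).  If the closed walks in `C` with length `≤ N = |C|` have length in an additive
set `X`, all have. (A closed walk of length `> N` has two equal vertices and splits into two
shorter ones, both in `C`; strong induction.) -/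
def S_SPLIT : Prop := ∀ (V : Type) (_ : DecidableEq V) (a : V → V → Prop) (C : Finset V)
  (X : ℕ → Prop), (∀ v ∈ C, ∀ w, a v w → w ∈ C) → (∀ s t, X s → X t → X (s + t)) →
  (∀ r, 1 ≤ r → r ≤ C.card → ∀ x ∈ C, Wk a r x x → X r) →
  ∀ r, 1 ≤ r → ∀ x ∈ C, Wk a r x x → X r

/-- ODD (40 lines, hypothesis SPLIT).  `N` even and least closed walk length `≥ N - 2`: there is a
closed walk of length `N - 1` in `C` (otherwise all closed walks have even length, but `j` has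
closed walks of lengths `K` and `K + 1`). -/
def S_ODD : Prop := ∀ (V : Type) (_ : DecidableEq V) (a : V → V → Prop) (j : V) (C : Finset V),
  Core a j C → Even C.card → 6 ≤ C.card →
  (∀ q, 1 ≤ q → q < C.card - 2 → ∀ x ∈ C, ¬ Wk a q x x) → ∃ c ∈ C, Wk a (C.card - 1) c c

/-- PM2 (150 lines, hypotheses ZS, ODD, CHAIN).  `N = |C|`, `p = N - 2`, `q = N - 1`; `Z`, `Z'` from
ZS (`|Z| = N-2`, `|Z'| = N-1`; `p < 2p`, `q < 2p`).  Claim: every `u ∈ C` has a walk to `j` of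
length `w ≤ N` that meets `Z` and `Z'`; then all lengths `w + s p + t q` occur, hence all
`≥ N + (p-1)(q-1)`.  The first three vertices of a walk of length `≥ 2` in `C` are distinct (no
closed walks of length 1, 2), so it meets `Z` (two vertices outside) and `Z'` (one outside).
Take a shortest walk `u → j` (length `d ≤ N - 1` by CHAIN): `d ≥ 2`: done.  `d = 0`: an arc
`j → x` and a shortest walk `x → j`: length in `[2, N]`.  `d = 1`: if `u` or `j` is in `Z`: `w = 1`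
(one of `u ≠ j` is in `Z'`).  Otherwise one of them is in `Z'`: go once around `Z'` there
(length `N - 1`; `Z'` meets `Z`), `w = N`. -/
def S_PM2 : Prop := ∀ (V : Type) (_ : DecidableEq V) (a : V → V → Prop) (j : V) (C : Finset V),
  Core a j C → Even C.card → 6 ≤ C.card → (∃ c ∈ C, Wk a (C.card - 2) c c) →
  (∀ q, 1 ≤ q → q < C.card - 2 → ∀ x ∈ C, ¬ Wk a q x x) →
  ∀ K, C.card + (C.card - 3) * (C.card - 2) ≤ K → ∀ u ∈ C, Wk a K u j

/-- PM1 (40 lines, hypothesis SPLIT).  All closed walks in `C` have length in `⟨N-1, N⟩`, which does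
not contain `(N-2)(N-1) - 1`. -/
def S_PM1 : Prop := ∀ (V : Type) (_ : DecidableEq V) (a : V → V → Prop) (j : V) (C : Finset V),
  Core a j C → 3 ≤ C.card → (∀ q, 1 ≤ q → q < C.card - 1 → ∀ x ∈ C, ¬ Wk a q x x) →
  ¬ Wk a ((C.card - 2) * (C.card - 1) - 1) j j

/-- UP (120 lines, hypotheses GIRTH, DET, PM2, PM1).  `C` = vertices reachable from `j`; `C ≠ univ`
(otherwise every `j'` is primitive: `Full a j K` and `Wk d j j'` give `Full a j' (K + d)`).
`M = |C| ≤ n - 1`, `p` = least length of a closed walk in `C` (`Nat.find`).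
`M = 1`: `p = 1`, `k ≤ n - 1`.  `M ≥ 2`: `p ≤ M - 1` (DET), `k ≤ n + p (M - 2)`.
`M ≤ n - 2`, or `p ≤ n - 4`: `k ≤ n + (n-3)(n-4) = n² - 6n + 12`.
`M = n - 1 = N`, `n` odd `≥ 9` (for odd `n ≤ 7` nothing to show), `p = N - 2`: PM2 and the arc from
the only vertex outside `C` into `C`: `k ≤ 1 + N + (N-3)(N-2)`.
`p = N - 1`: `k > (N-2)(N-1) - 1` by PM1 (`Full_le`). -/
def S_UP : Prop := ∀ n k : ℕ, 3 ≤ n → k ∈ NP n → 1 ≤ k ∧ k + 4 * n ≤ n ^ 2 + 6 ∧
  (Even n ∨ k + 6 * n ≤ n ^ 2 + 12 ∨ n ^ 2 + 6 ≤ k + 5 * n)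

/-- a gap: an integer strictly between two elements of `X` that is not in `X` -/
def HasGap (X : Set ℕ) : Prop := ∃ k, k ∉ X ∧ (∃ x ∈ X, x < k) ∧ ∃ y ∈ X, k < y

/-- FIN (60 lines, hypotheses TR, IND, UP).  `NP 2 = {1}` by hand. -/
def S_FIN : Prop :=
  (∀ (n : ℕ) (j : Fin n), 3 ≤ n → R 2 n j = {k | 1 ≤ k ∧ k + 4 * n ≤ n ^ 2 + 6 ∧
    (Even n ∨ k + 6 * n ≤ n ^ 2 + 12 ∨ n ^ 2 + 6 ≤ k + 5 * n)}) ∧
  (∀ j : Fin 2, R 2 2 j = {1}) ∧
  ∀ (n : ℕ) (j : Fin n), 2 ≤ n → (HasGap (R 2 n j) ↔ Odd n ∧ 9 ≤ n)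

end Pool.Agent.L7h35.GP
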