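import Pool.Agent.L7h35.GP.Stm

set_option autoImplicit false

namespace Pool.Agent.L7h35.GP

lemma S_iff {n : ℕ} {A : Fin n → (Fin (2 - 1) → Fin n) → ℝ} {a : Fin n → Fin n → Prop}
    (h : ∀ u v, a u v ↔ 0 < A u (fun _ => v)) (j : Fin n) (k : ℕ) (u : Fin n) :
    u ∈ S A j k ↔ Wk a k u j := by
  induction k generalizing u with
  | zero => exact Iff.rfl
  | succ k ih =>
    constructor
    · rintro ⟨i, hi, hA⟩
      refine ⟨i 0, (h _ _).2 ?_, (ih _).1 (hi 0)⟩
      have : (fun _ => i 0) = i := by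
        funext t
        have : t = 0 := Subsingleton.elim (α := Fin 1) t 0
        rw [this]
      rw [this]
      exact hA
    · rintro ⟨w, hw, h2⟩
      exact ⟨fun _ => w, fun t => (ih _).2 h2, (h _ _).1 hw⟩

lemma univ_iff {n : ℕ} {A : Fin n → (Fin (2 - 1) → Fin n) → ℝ} {a : Fin n → Fin n → Prop}
    (h : ∀ u v, a u v ↔ 0 < A u (fun _ => v)) (j : Fin n) (k : ℕ) :
    S A j k = Set.univ ↔ Full a j k := by
  constructor
  · intro he u
    exact (S_iff h j k u).1 (by rw [he]; trivial)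
  · intro hf
    exact Set.eq_univ_of_forall fun u => (S_iff h j k u).2 (hf u)

lemma Wk_map {V W : Type} (e : V ≃ W) {a : V → V → Prop} {k : ℕ} {u v : V} :
    Wk (fun x y : W => a (e.symm x) (e.symm y)) k (e u) (e v) ↔ Wk a k u v := by
  induction k generalizing u with
  | zero => exact e.injective.eq_iff
  | succ k ih =>
    constructor
    · rintro ⟨w, hw, h⟩
      obtain ⟨x, rfl⟩ := e.surjective w
      exact ⟨x, by simpa using hw, ih.1 h⟩
    · rintro ⟨w, hw, h⟩
      exact ⟨e w, by simpa using hw, ih.2 h⟩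

lemma Full_map {V W : Type} (e : V ≃ W) {a : V → V → Prop} {j : V} {k : ℕ} :
    Full (fun x y : W => a (e.symm x) (e.symm y)) (e j) k ↔ Full a j k := by
  constructor
  · intro h u
    exact (Wk_map e).1 (h (e u))
  · intro h u
    obtain ⟨x, rfl⟩ := e.surjective u
    exact (Wk_map e).2 (h x)

theorem s_TR : S_TR := by
  intro n j
  ext K
  constructor
  · rintro ⟨A, -, hnp, hp, hg⟩
    have h : ∀ u v, (fun u v => 0 < A u (fun _ => v)) u v ↔ 0 < A u (fun _ => v) :=
      fun u v => Iff.rfl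
    have h1 : gamma A j ∈ {k | 1 ≤ k ∧ S A j k = Set.univ} := Nat.sInf_mem hp
    rw [hg] at h1
    refine ⟨fun u v => 0 < A u (fun _ => v), j, ⟨h1.1, (univ_iff h j K).1 h1.2, ?_⟩, ?_⟩
    · intro k hk hlt hf
      have h2 : k ∉ {k | 1 ≤ k ∧ S A j k = Set.univ} :=
        Nat.notMem_of_lt_sInf (show k < gamma A j by omega)
      exact h2 ⟨hk, (univ_iff h j k).2 hf⟩
    · push Not at hnp
      obtain ⟨j', hj'⟩ := hnp
      exact ⟨j', fun k hk hf => hj' ⟨k, hk, (univ_iff h j' k).2 hf⟩⟩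
  · rintro ⟨a0, j0, ⟨hK1, hK, hmin⟩, j', hj'⟩
    classical
    let e : Fin n ≃ Fin n := Equiv.swap j0 j
    have hej : e j0 = j := Equiv.swap_apply_left _ _
    let a : Fin n → Fin n → Prop := fun x y => a0 (e.symm x) (e.symm y)
    let A : Fin n → (Fin (2 - 1) → Fin n) → ℝ := fun u i => if a u (i 0) then 1 else 0
    have h : ∀ u v, a u v ↔ 0 < A u (fun _ => v) := by
      intro u v
      simp only [A]
      by_cases hc : a u v
      · simp [hc]
      · simp [hc]
    have hfull : ∀ k, Full a j k ↔ Full a0 j0 k := by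
      intro k
      rw [← hej]
      exact Full_map e
    have hmem : K ∈ {k | 1 ≤ k ∧ S A j k = Set.univ} :=
      ⟨hK1, (univ_iff h j K).2 ((hfull K).2 hK)⟩
    refine ⟨A, fun u i => by simp only [A]; split_ifs <;> norm_num, ?_, ⟨K, hmem⟩, ?_⟩
    · intro hall
      obtain ⟨k, hk, hk2⟩ := hall (e j')
      exact hj' k hk ((Full_map e).1 ((univ_iff h (e j') k).1 hk2))
    · apply le_antisymm
      · exact Nat.sInf_le hmem
      · refine le_csInf ⟨K, hmem⟩ ?_
        rintro b ⟨hb1, hb2⟩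
        by_contra hc
        exact hmin b hb1 (by omega) ((hfull b).1 ((univ_iff h j b).1 hb2))

end Pool.Agent.L7h35.GP
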