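import Pool.Agent.L7h35.GP.Stm

set_option autoImplicit false

namespace Pool.Agent.L7h35.GP

theorem s_UP (hGIRTH : S_GIRTH) (hDET : S_DET) (hPM2 : S_PM2) (hPM1 : S_PM1) : S_UP := by
  classical
  intro n k hn hkNP
  obtain ⟨a, j, ⟨hk1, hk, hmin⟩, j', hj'⟩ := hkNP
  obtain ⟨m, rfl⟩ : ∃ m, n = m + 3 := ⟨n - 3, by omega⟩
  set C : Finset (Fin (m + 3)) := Finset.univ.filter (fun v => ∃ d, Wk a d j v) with hC
  have hmemC : ∀ v, v ∈ C ↔ ∃ d, Wk a d j v := by
    intro v
    simp [hC]
  have hcore : Core a j C := by
    refine ⟨(hmemC j).2 ⟨0, rfl⟩, ?_, fun v hv => (hmemC v).1 hv, ⟨k, hk1, hk⟩⟩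
    intro v hv w hvw
    obtain ⟨d, hd⟩ := (hmemC v).1 hv
    exact (hmemC w).2 ⟨d + 1, Wk_trans hd (Wk_one.2 hvw)⟩
  have hCne : j' ∉ C := by
    intro hj
    obtain ⟨d, hd⟩ := (hmemC j').1 hj
    exact hj' (k + d) (by omega) fun u => Wk_trans (hk u) hd
  have hcard1 : 1 ≤ C.card := Finset.card_pos.2 ⟨j, hcore.mem⟩
  have hcard2 : C.card ≤ m + 2 := by
    have : C.card < (Finset.univ : Finset (Fin (m + 3))).card :=
      Finset.card_lt_card (Finset.ssubset_iff_subset_ne.2
        ⟨Finset.subset_univ _, fun h => hCne (h ▸ Finset.mem_univ _)⟩)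
    rw [Finset.card_univ, Fintype.card_fin] at this
    omega
  have hbound : ∀ B, 1 ≤ B → Full a j B → k ≤ B := by
    intro B hB hf
    by_contra hc
    exact hmin B hB (by omega) hf
  -- the least length of a closed walk in `C`
  have hex : ∃ q, 1 ≤ q ∧ ∃ c ∈ C, Wk a q c c := ⟨k, hk1, j, hcore.mem, hk j⟩
  obtain ⟨p, hp1, ⟨c, hcC, hcW⟩, hpmin⟩ : ∃ p, 1 ≤ p ∧ (∃ c ∈ C, Wk a p c c) ∧
      ∀ q, 1 ≤ q → q < p → ∀ x ∈ C, ¬ Wk a q x x := by
    refine ⟨Nat.find hex, (Nat.find_spec hex).1, (Nat.find_spec hex).2, ?_⟩
    intro q hq hlt x hx hW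
    exact Nat.find_min hex hlt ⟨hq, x, hx, hW⟩
  have hG := hGIRTH (Fin (m + 3)) inferInstance inferInstance a j C p c hcore hp1 hcC hcW hpmin
  rw [Fintype.card_fin] at hG
  rcases Nat.lt_or_ge C.card 2 with hM | hM
  · -- `C = {j}`
    have hM1 : C.card = 1 := by omega
    have hjj : Wk a 1 j j := by
      obtain ⟨k', rfl⟩ : ∃ l, k = l + 1 := ⟨k - 1, by omega⟩
      obtain ⟨w, hw, -⟩ := hk j
      have hwC := hcore.closed j hcore.mem w hw
      obtain rfl : w = j := Finset.card_le_one.1 hM1.le w hwC j hcore.mem
      exact Wk_one.2 hw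
    have hp : p = 1 := by
      by_contra hne
      exact hpmin 1 le_rfl (by omega) j hcore.mem hjj
    subst hp
    rw [hM1] at hG
    have hkB := hbound _ (by omega) hG
    refine ⟨hk1, ?_, Or.inr (Or.inl ?_)⟩
    · have h1 : k ≤ m + 2 := by omega
      nlinarith
    · have h1 : k ≤ m + 2 := by omega
      have h2 : m ≤ m * m + 1 := by nlinarith
      nlinarith
  · obtain ⟨p', hp'1, hp'M, c', hc'C, hc'W⟩ :=
      hDET (Fin (m + 3)) inferInstance inferInstance a j C hcore hM
    have hpM : p + 1 ≤ C.card := by
      by_contra hc
      exact hpmin p' hp'1 (by omega) c' hc'C hc'W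
    obtain ⟨M, hCM⟩ : ∃ M, C.card = M + 2 := ⟨C.card - 2, by omega⟩
    rw [hCM] at hG hpM hcard2
    have hkB : k ≤ m + 3 + p * M := by
      have h1 := hbound _ (by
        have : 1 ≤ m + 3 - p := by omega
        omega) hG
      have h2 : p * (M + 2 - 1) = p * M + p := by
        rw [show M + 2 - 1 = M + 1 by omega]
        ring
      omega
    have hfirst : k + 4 * (m + 3) ≤ (m + 3) ^ 2 + 6 := by
      have h3 : p * M ≤ (m + 1) * m := Nat.mul_le_mul (by omega) (by omega)
      nlinarith
    refine ⟨hk1, hfirst, ?_⟩
    rcases Nat.even_or_odd (m + 3) with hev | hodd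
    · exact Or.inl hev
    right
    -- it is enough to bound `k` by `m ^ 2 + 3`
    have hred : (∃ B, k ≤ m + 3 + B ∧ B + m ≤ m * m) → k + 6 * (m + 3) ≤ (m + 3) ^ 2 + 12 := by
      rintro ⟨B, h1, h2⟩
      nlinarith
    rcases Nat.lt_or_ge M m with hMm | hMm
    · left
      apply hred
      refine ⟨p * M, hkB, ?_⟩
      obtain ⟨t, rfl⟩ : ∃ t, m = t + 1 := ⟨m - 1, by omega⟩
      have h3 : p * M ≤ (t + 1) * t := Nat.mul_le_mul (by omega) (by omega)
      nlinarith
    · obtain rfl : M = m := by omega
      rcases Nat.lt_or_ge p M with hpm | hpm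
      · left
        apply hred
        refine ⟨p * M, hkB, ?_⟩
        obtain ⟨t, rfl⟩ : ∃ t, M = t + 1 := ⟨M - 1, by omega⟩
        have h3 : p * (t + 1) ≤ t * (t + 1) := Nat.mul_le_mul (by omega) le_rfl
        nlinarith
      · rcases Nat.lt_or_ge M 6 with h6 | h6
        · -- `n ≤ 8`, so `n = 3, 5, 7`
          obtain ⟨t, ht⟩ := hodd
          rcases (show M = 0 ∨ M = 2 ∨ M = 4 by omega) with h | h | h
          · subst h; omega
          · subst h; omega
          · subst h; omega
        · rcases Nat.eq_or_lt_of_le hpm with hpe | hplt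
          · -- `p = N - 2`
            left
            subst hpe
            have hevC : Even C.card := by
              rw [hCM]
              obtain ⟨t, ht⟩ := hodd
              exact ⟨t, by omega⟩
            have h2 := hPM2 (Fin (M + 3)) inferInstance a j C hcore hevC (by omega)
              (by rw [hCM]; exact ⟨c, hcC, hcW⟩)
              (by rw [hCM]; exact hpmin)
            rw [hCM] at h2
            have hfull : Full a j (M + 2 + (M + 2 - 3) * (M + 2 - 2) + 1) := by
              intro u
              by_cases hu : u ∈ C
              · exact h2 _ (by omega) u hu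
              · have harc : ∃ w ∈ C, a u w := by
                  by_contra hno
                  push Not at hno
                  have hstay : ∀ w, a u w → w = u := by
                    intro w hw
                    have hwC : w ∉ C := fun h => hno w h hw
                    by_contra hne
                    have h3 : (insert w (insert u C)).card ≤ M + 3 := by
                      have := Finset.card_le_univ (insert w (insert u C))
                      rwa [Fintype.card_fin] at this
                    rw [Finset.card_insert_of_notMem, Finset.card_insert_of_notMem hu, hCM] at h3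
                    · omega
                    · simp [hne, hwC]
                  have hall : ∀ d v, Wk a d u v → v = u := by
                    intro d
                    induction d with
                    | zero => intro v hv; exact hv.symm
                    | succ d ih =>
                      rintro v ⟨w, hw, h⟩
                      rw [hstay w hw] at h
                      exact ih v h
                  exact hu ((hall k j (hk u)) ▸ hcore.mem)
                obtain ⟨w, hwC, hw⟩ := harc
                exact ⟨w, hw, h2 _ le_rfl w hwC⟩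
            have hkB2 := hbound _ (by omega) hfull
            apply hred
            obtain ⟨t, rfl⟩ : ∃ t, M = t + 1 := ⟨M - 1, by omega⟩
            rw [show t + 1 + 2 - 3 = t by omega, show t + 1 + 2 - 2 = t + 1 by omega] at hkB2
            refine ⟨t * (t + 1), by omega, ?_⟩
            nlinarith
          · -- `p = N - 1`
            right
            have hpe : p = M + 1 := by omega
            subst hpe
            have h1 := hPM1 (Fin (M + 3)) inferInstance a j C hcore (by omega)
              (by rw [hCM]; exact hpmin)
            rw [hCM, show M + 2 - 2 = M by omega, show M + 2 - 1 = M + 1 by omega] at h1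
            have hlt : M * (M + 1) - 1 < k := by
              by_contra hc
              exact h1 (Full_le hk1 (by omega) hk j)
            have : M * (M + 1) ≤ k := by omega
            nlinarith

end Pool.Agent.L7h35.GP
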