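import Pool.Agent.L7h35.GP.Stm

set_option autoImplicit false

namespace Pool.Agent.L7h35.GP

lemma exists_path {V : Type} {a : V → V → Prop} {k : ℕ} {u v : V} (h : Wk a k u v) :
    ∃ x : ℕ → V, x 0 = u ∧ x k = v ∧ ∀ i < k, a (x i) (x (i + 1)) := by
  induction k generalizing u with
  | zero => exact ⟨fun _ => u, rfl, h, fun i hi => absurd hi (by omega)⟩
  | succ k ih =>
    obtain ⟨w, hw, h2⟩ := h
    obtain ⟨y, hy0, hyk, hy⟩ := ih h2
    refine ⟨fun i => if i = 0 then u else y (i - 1), by simp, by simpa using hyk, ?_⟩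
    intro i hi
    rcases Nat.eq_zero_or_pos i with rfl | hi0
    · simpa [hy0] using hw
    · have h1 := hy (i - 1) (by omega)
      have e : i - 1 + 1 = i := by omega
      rw [e] at h1
      have hne : i ≠ 0 := by omega
      simpa [hne] using h1

lemma seg {V : Type} {a : V → V → Prop} {x : ℕ → V} {p : ℕ}
    (h : ∀ i < p, a (x i) (x (i + 1))) {i l : ℕ} (hl : i + l ≤ p) : Wk a l (x i) (x (i + l)) := by
  induction l with
  | zero => rfl
  | succ l ih => exact Wk_trans (ih (by omega)) (Wk_one.2 (h (i + l) (by omega)))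

lemma path_mem {V : Type} {a : V → V → Prop} {C : Finset V} {x : ℕ → V} {p : ℕ}
    (hC : ∀ v ∈ C, ∀ w, a v w → w ∈ C)
    (h : ∀ i < p, a (x i) (x (i + 1))) (h0 : x 0 ∈ C) {i : ℕ} (hi : i ≤ p) : x i ∈ C := by
  induction i with
  | zero => exact h0
  | succ i ih => exact hC _ (ih (by omega)) _ (h i (by omega))

theorem s_ZS : S_ZS := by
  intro V _ a C c p q hC hc hp hW hpq hmin
  obtain ⟨x, hx0, hxp, hx⟩ := exists_path hW
  have hxC : ∀ i ≤ p, x i ∈ C := fun i hi => path_mem hC hx (hx0 ▸ hc) hi
  have hinj : Set.InjOn x (Finset.range p : Finset ℕ) := by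
    have key : ∀ i k, i < k → k < p → x i ≠ x k := by
      intro i k hik hkp he
      have h1 : Wk a (k - i) (x i) (x i) := by
        have := seg hx (i := i) (l := k - i) (by omega)
        rw [show i + (k - i) = k by omega, ← he] at this
        exact this
      have h2 : Wk a (p - k + i) (x i) (x i) := by
        have h3 := seg hx (i := k) (l := p - k) (by omega)
        rw [show k + (p - k) = p by omega, hxp, ← hx0, ← he] at h3
        have h4 := seg hx (i := 0) (l := i) (by omega)
        rw [Nat.zero_add] at h4
        exact Wk_trans h3 h4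
      have hm := hxC i (by omega)
      rcases Nat.lt_or_ge (k - i) q with h | h
      · exact hmin _ (by omega) h _ hm h1
      · exact hmin _ (by omega) (by omega) _ hm h2
    intro i hi k hk he
    have hi' : i < p := by simpa using hi
    have hk' : k < p := by simpa using hk
    rcases Nat.lt_trichotomy i k with h | h | h
    · exact absurd he (key i k h hk')
    · exact h
    · exact absurd he.symm (key k i h hi')
  refine ⟨(Finset.range p).image x, ?_, ?_, ?_, ?_⟩
  · intro v hv
    obtain ⟨i, hi, rfl⟩ := Finset.mem_image.1 hv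
    exact hxC i (Finset.mem_range.1 hi).le
  · rw [Finset.card_image_of_injOn hinj, Finset.card_range]
  · exact Finset.mem_image.2 ⟨0, Finset.mem_range.2 (by omega), hx0⟩
  · intro z hz
    obtain ⟨i, hi, rfl⟩ := Finset.mem_image.1 hz
    have hi' := Finset.mem_range.1 hi
    have hend : Wk a (p - i) (x i) (x 0) := by
      have h3 := seg hx (i := i) (l := p - i) (by omega)
      rw [show i + (p - i) = p by omega, hxp, ← hx0] at h3
      exact h3
    have hst : ∀ k ≤ p, Wk a k (x 0) (x k) := by
      intro k hk
      have h4 := seg hx (i := 0) (l := k) (by omega)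
      rwa [Nat.zero_add] at h4
    refine ⟨Wk_cast (Wk_trans hend (hst i hi'.le)) (by omega), ?_, ?_⟩
    · rcases Nat.lt_or_ge (i + 1) p with h | h
      · exact ⟨x (i + 1), Finset.mem_image.2 ⟨i + 1, Finset.mem_range.2 h, rfl⟩, hx i hi'⟩
      · refine ⟨x 0, Finset.mem_image.2 ⟨0, Finset.mem_range.2 (by omega), rfl⟩, ?_⟩
        have := hx i hi'
        rw [show i + 1 = p by omega, hxp, ← hx0] at this
        exact this
    · intro y hy
      obtain ⟨k, hk, rfl⟩ := Finset.mem_image.1 hy
      have hk' := Finset.mem_range.1 hk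
      rcases Nat.le_total i k with h | h
      · refine ⟨k - i, by omega, ?_⟩
        have := seg hx (i := i) (l := k - i) (by omega)
        rwa [show i + (k - i) = k by omega] at this
      · rcases Nat.eq_or_lt_of_le h with h | h
        · subst h
          exact ⟨0, by omega, rfl⟩
        · exact ⟨p - i + k, by omega, Wk_trans hend (hst k hk'.le)⟩

end Pool.Agent.L7h35.GP
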